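import Pool.Agent.Q132.MG.Few

/-!
# Margulis' injectivity radius conjecture: the number of characteristic polynomials of short elements

For all arithmetic groups `Γ`, over all number fields `k` (of degree `d` over `ℚ`), with matrices of
size `n` and at most `s` noncompact embeddings: the elements `γ` of `Γ` such that all eigenvalues of
`ρ γ` have absolute value at most `1 + δ` have at most `C d ^ (n + η)` different characteristic
polynomials, where `η > 0` is arbitrary and `C`, `δ > 0` depend on `n`, `s` and `η` only. So there is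
an identity neighbourhood `U` in `G` such that the elements of `Γ` with a conjugate in `U` have at
most `C d ^ (n + η)` characteristic polynomials. The conjecture says that (for torsion-free uniform
lattices and suitable `U`) there is only one.

`Pool.Agent.H225R3.MargDefs` contains the definition of `Realization ρ Γ k n S`: a homomorphism `r`
from `Γ` to the `n` by `n` matrices over the ring of integers of `k`, bounded under all embeddings
outside `S`, such that for `σ` in `S` the eigenvalues of `σ (r γ)` are eigenvalues of `ρ γ`, and such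
that only `1` is mapped to a unipotent matrix.

Method. The characteristic polynomials are points of `P ^ n (k)`, and squaring the eigenvalues is an
endomorphism `f` of `P ^ n` of degree `2`. The canonical height of `r γ` for `f` is at most
`2 n s δ / d`. By `Pool.Agent.W238.Leh.general` all but `C d ^ (n + η)` points of `P ^ n (k)` have
canonical height at least `1 / (C d)`.
-/

set_option autoImplicit false

open NumberField Module Pool.Agent.H225R3.Marg Pool.Agent.Q132.MG

namespace Pool.Agent.Results.MP_162bbe_gt.FewShortClasses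

universe u

section

variable {G : Type u} [Group G] {M : ℕ} {ρ : G →* Matrix (Fin M) (Fin M) ℂ} {Γ : Subgroup G}
  {k : Type} [Field k] [NumberField k] {n : ℕ} {S : Finset (k →+* ℂ)}

/-- The characteristic polynomials of the elements `γ` of `Γ` for which all eigenvalues of `ρ γ` have
absolute value at most `1 + δ`. -/
def shortPolynomials (R : Realization ρ Γ k n S) (δ : ℝ) : Set (Polynomial (𝓞 k)) :=
  {f | ∃ γ : Γ, (∀ l : ℂ, IsEig (ρ γ) l → ‖l‖ ≤ 1 + δ) ∧ f = (R.r γ).charpoly}

/-- The characteristic polynomials of the elements of `Γ` that are conjugate in `G` to an element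
of `U`. -/
def polynomialsNear (R : Realization ρ Γ k n S) (U : Set G) : Set (Polynomial (𝓞 k)) :=
  {f | ∃ γ : Γ, (∃ g : G, ∃ u ∈ U, (γ : G) = g * u * g⁻¹) ∧ f = (R.r γ).charpoly}

end

/-- For all `n`, `s` and `η > 0` there are `C` and `δ > 0` such that the following holds for all
arithmetic groups `Γ` which are realized by matrices of size `n` with at most `s` noncompact
embeddings over a number field `k`, of any degree `d`.

(1) There are at most `C d ^ (n + η)` characteristic polynomials of elements `γ` of `Γ` for which all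
eigenvalues of `ρ γ` have absolute value at most `1 + δ`.

(2) If `G` is a topological group and `ρ` is continuous, there is an identity neighbourhood `U` in `G`
such that for all these `Γ` there are at most `C d ^ (n + η)` characteristic polynomials of elements
of `Γ` that are conjugate in `G` to elements of `U`. -/
theorem result (n s : ℕ) (η : ℝ) (hη : 0 < η) :
    ∃ C δ : ℝ, 0 < C ∧ 0 < δ ∧
    (∀ (G : Type u) [Group G] (M : ℕ) (ρ : G →* Matrix (Fin M) (Fin M) ℂ) (Γ : Subgroup G)
      (k : Type) [Field k] [NumberField k] (S : Finset (k →+* ℂ)) (R : Realization ρ Γ k n S),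
      S.card ≤ s → (shortPolynomials R δ).Finite ∧
        ((shortPolynomials R δ).ncard : ℝ) ≤ C * (finrank ℚ k : ℝ) ^ ((n : ℝ) + η)) ∧
    (∀ (G : Type u) [Group G] [TopologicalSpace G] (M : ℕ) (ρ : G →* Matrix (Fin M) (Fin M) ℂ),
      Continuous ρ → ∃ U ∈ nhds (1 : G), ∀ (Γ : Subgroup G)
      (k : Type) [Field k] [NumberField k] (S : Finset (k →+* ℂ)) (R : Realization ρ Γ k n S),
      S.card ≤ s → (polynomialsNear R U).Finite ∧
        ((polynomialsNear R U).ncard : ℝ) ≤ C * (finrank ℚ k : ℝ) ^ ((n : ℝ) + η)) := by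
  obtain ⟨C, δ, hC, hδ, hmain⟩ := few_charpoly n s η hη
  have h1 : ∀ (G : Type u) [Group G] (M : ℕ) (ρ : G →* Matrix (Fin M) (Fin M) ℂ) (Γ : Subgroup G)
      (k : Type) [Field k] [NumberField k] (S : Finset (k →+* ℂ)) (R : Realization ρ Γ k n S),
      S.card ≤ s → (shortPolynomials R δ).Finite ∧
        ((shortPolynomials R δ).ncard : ℝ) ≤ C * (finrank ℚ k : ℝ) ^ ((n : ℝ) + η) := by
    intro G _ M ρ Γ k _ _ S R hS
    obtain ⟨hfin, hcard⟩ := hmain k S hS
    have hsub : shortPolynomials R δ ⊆ {f : Polynomial (𝓞 k) |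
        ∃ A : Matrix (Fin n) (Fin n) (𝓞 k), f = A.charpoly ∧
        (∀ σ : k →+* ℂ, σ ∉ S → ∀ l : ℂ, ((emb σ).mapMatrix A).charpoly.IsRoot l → ‖l‖ ≤ 1) ∧
        (∀ σ ∈ S, ∀ l : ℂ, ((emb σ).mapMatrix A).charpoly.IsRoot l → ‖l‖ ≤ 1 + δ)} := by
      rintro f ⟨γ, hγ, rfl⟩
      exact ⟨R.r γ, rfl, fun σ hσ l hl => R.comp' γ σ hσ l hl,
        fun σ hσ l hl => hγ l (R.eig σ hσ γ l hl)⟩
    refine ⟨hfin.subset hsub, le_trans ?_ hcard⟩
    exact_mod_cast Set.ncard_le_ncard hsub hfin
  refine ⟨C, δ, hC, hδ, h1, ?_⟩
  intro G _ _ M ρ hρ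
  refine ⟨_, nhd ρ hρ δ hδ, ?_⟩
  intro Γ k _ _ S R hS
  obtain ⟨hfin, hcard⟩ := h1 G M ρ Γ k S R hS
  have hsub : polynomialsNear R {g : G | ∀ i j, ‖(ρ g - 1) i j‖ < δ / (M + 1)} ⊆
      shortPolynomials R δ := by
    rintro f ⟨γ, ⟨g, u, hu, hγ⟩, rfl⟩
    refine ⟨γ, fun l hl => ?_, rfl⟩
    have h2 : (ρ (γ : G)).charpoly = (ρ u).charpoly := by
      rw [hγ, map_mul, map_mul]
      have h4 : ρ g⁻¹ * ρ g = 1 := by rw [← map_mul, inv_mul_cancel, map_one]
      rw [Matrix.charpoly_mul_comm, ← mul_assoc, h4, one_mul]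
    rw [IsEig, h2] at hl
    have h3 := close_eig (ρ u) δ hδ hu l hl
    have h5 : ‖l‖ ≤ ‖l - 1‖ + ‖(1 : ℂ)‖ := by
      have := norm_add_le (l - 1) 1
      rwa [sub_add_cancel] at this
    rw [norm_one] at h5
    linarith
  refine ⟨hfin.subset hsub, le_trans ?_ hcard⟩
  exact_mod_cast Set.ncard_le_ncard hsub hfin

end Pool.Agent.Results.MP_162bbe_gt.FewShortClasses
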