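import Pool.Agent.Q132.MG.Uniform

/-!
# Margulis' injectivity radius conjecture over fields with Frobenius automorphisms

Torsion-free arithmetic groups `Γ` (of bounded size `n` of the matrices and with a bounded number `s`
of noncompact embeddings) over a number field `k` are considered which has degree at most `D` over a
subfield `k₁ ⊇ K` with an automorphism `τ` over `K` which is a power of Frobenius at a positive
proportion of the primes above a fixed prime `P` of `K`. These groups form a uniformly discrete family.

In particular this holds if `k₁` is a Galois extension of `K` and some Frobenius element above `P`,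
or its `m`-th power, has a bounded number of conjugates in the Galois group; so for abelian
extensions, for Galois groups of bounded exponent, with an abelian subgroup of bounded index, or with
a commutator subgroup of bounded order. The field `k` itself need not be Galois over `K`, and may have
a trivial automorphism group.

`Pool.Agent.H225R3.MargDefs` contains the definitions: `Realization ρ Γ k n S` (a homomorphism `r`
from `Γ` to the `n` by `n` matrices over the ring of integers of `k`, bounded under all embeddings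
outside `S`, such that for `σ` in `S` the eigenvalues of `σ (r γ)` are eigenvalues of `ρ γ`, and such
that only `1` is mapped to a unipotent matrix) and `UniformlyDiscrete` (there is an identity
neighbourhood `U` such that `g U g⁻¹` meets every group of the family in the identity only).

Method. Let `x` be an eigenvalue of `r γ` that is not a root of unity and `f` its minimal polynomial
over `k₁`, of degree at most `n D`. Its zeros outside the unit circle are eigenvalues of `r γ` at the
noncompact embeddings of `k`. The coefficients of `f` form a point of `P ^ (n D) (k₁)`, and raising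
the zeros to the `p`-th power is an endomorphism of this space with good, purely inseparable
reduction at the primes above `p`; a lower bound for canonical heights (`Pool.Agent.H627.LP.main`)
gives a conjugate of `x` whose absolute value is bounded away from `1` (`Pool.Agent.TH285.MG`).
-/

set_option autoImplicit false

open NumberField Module Pool.Agent.H225R3.Marg Pool.Agent.Q132.MG

namespace Pool.Agent.Results.MP_162bbe_gt.FrobeniusAutomorphisms

/-- `τ` acts on the residue field of `𝔓` as the power `q`. -/
def ActsAsPower {K k₁ : Type} [Field K] [Field k₁] [NumberField k₁] [Algebra K k₁]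
    (τ : Gal(k₁/K)) (q : ℕ) (𝔓 : Ideal (𝓞 k₁)) : Prop := ∀ a : 𝓞 k₁, τ • a - a ^ q ∈ 𝔓

/-- An automorphism `τ` of `k₁` over `K` acts as the power `(N P) ^ m` at a set `T` of primes above
`P` which have at least the proportion `1 / B` of all local degrees (these add up to
`[k₁ : K]`). -/
def FrobeniusAtMany {K : Type} [Field K] [NumberField K] (P : Ideal (𝓞 K)) (m B : ℕ) (k₁ : Type)
    [Field k₁] [NumberField k₁] [Algebra K k₁] : Prop :=
  ∃ (τ : Gal(k₁/K)) (T : Finset (Ideal (𝓞 k₁))),
    (∀ 𝔓 ∈ T, 𝔓.IsPrime ∧ 𝔓.under (𝓞 K) = P ∧ ActsAsPower τ (P.absNorm ^ m) 𝔓) ∧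
    finrank K k₁ ≤ B * ∑ 𝔓 ∈ T, 𝔓.ramificationIdx (𝓞 K) * 𝔓.inertiaDeg (𝓞 K)

/-- `k₁` is a Galois extension of `K`, and an element of the Galois group which acts as the power
`(N P) ^ m` at one prime above `P` has at most `B` conjugates. -/
def FewConjugates {K : Type} [Field K] [NumberField K] (P : Ideal (𝓞 K)) (m B : ℕ) (k₁ : Type)
    [Field k₁] [NumberField k₁] [Algebra K k₁] : Prop :=
  IsGalois K k₁ ∧ ∃ (𝔓 : Ideal (𝓞 k₁)) (τ : Gal(k₁/K)), 𝔓.IsPrime ∧ 𝔓.under (𝓞 K) = P ∧
    ActsAsPower τ (P.absNorm ^ m) 𝔓 ∧ (Set.range fun g : Gal(k₁/K) => g * τ * g⁻¹).ncard ≤ B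

/-- `k₁` is a Galois extension of `K`, and all `m`-th powers in the Galois group have at most `B`
conjugates (`m = B = 1`: abelian extensions; `B = 1`: for instance groups of exponent `m`). -/
def FewConjugatesOfPowers (K : Type) [Field K] (m B : ℕ) (k₁ : Type) [Field k₁] [Algebra K k₁] :
    Prop :=
  IsGalois K k₁ ∧ ∀ σ : Gal(k₁/K), (Set.range fun g : Gal(k₁/K) => g * σ ^ m * g⁻¹).ncard ≤ B

/-- `k₁` is a Galois extension of `K`, and the Galois group has an abelian subgroup of index at
most `t`. -/
def VirtuallyAbelian (K : Type) [Field K] (t : ℕ) (k₁ : Type) [Field k₁] [Algebra K k₁] : Prop :=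
  IsGalois K k₁ ∧ ∃ H : Subgroup Gal(k₁/K), (∀ x ∈ H, ∀ y ∈ H, x * y = y * x) ∧ H.index ≤ t

/-- `k₁` is a Galois extension of `K`, and the commutator subgroup of the Galois group has order at
most `t`. -/
def SmallCommutatorSubgroup (K : Type) [Field K] (t : ℕ) (k₁ : Type) [Field k₁] [Algebra K k₁] :
    Prop :=
  IsGalois K k₁ ∧ Nat.card (commutator Gal(k₁/K)) ≤ t

/-- The torsion-free subgroups `Γ` of `G` that have a realization by matrices of size `n`, with at
most `s` noncompact embeddings, over a number field `k` which is an extension of degree at most `D`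
of an extension `k₁` of `K` with the property `Q`. -/
def Family (K : Type) [Field K] (Q : ∀ (k₁ : Type) [Field k₁] [NumberField k₁] [Algebra K k₁], Prop)
    (D s n : ℕ) {G : Type*} [Group G] {M : ℕ} (ρ : G →* Matrix (Fin M) (Fin M) ℂ) :
    Set (Subgroup G) :=
  {Γ | (∀ γ ∈ Γ, ∀ N : ℕ, 0 < N → γ ^ N = 1 → γ = 1) ∧
    ∃ (k k₁ : Type) (_ : Field k) (_ : NumberField k) (_ : Field k₁) (_ : NumberField k₁)
      (_ : Algebra K k₁) (_ : Algebra k₁ k) (S : Finset (k →+* ℂ)) (_ : Realization ρ Γ k n S),
      S.card ≤ s ∧ finrank k₁ k ≤ D ∧ Q k₁}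

theorem powers (K : Type) [Field K] [NumberField K] (m B N : ℕ) (hm : 1 ≤ m) :
    ∃ C : ℝ, 0 < C ∧ ∀ (k₁ : Type) [Field k₁] [NumberField k₁] [Algebra K k₁],
      FewConjugatesOfPowers K m B k₁ → HeightBound K 2 N C k₁ := by
  obtain ⟨v, hv⟩ := Pool.Agent.TH285.MG.exists_place K 2 Nat.prime_two
  obtain ⟨C, hC, hgal, -, -⟩ := Pool.Agent.H627.LP.final (N := N) (k := K) (K := K) Nat.prime_two
    (r := 1) le_rfl (Pool.Agent.TH285.MG.frK K 2 N) 1 (by simp) (Pool.Agent.TH285.MG.frK K 2 N)
    (fun i => by
      rw [pow_one]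
      exact Pool.Agent.TH285.MG.frK_hom 2 N i) (Pool.Agent.TH285.MG.conj_one K 2 N) v hv
    (Pool.Agent.TH285.MG.frK_insep v 2 Nat.prime_two hv N) hm B
  refine ⟨C, hC, ?_⟩
  intro k₁ _ _ _ hk₁ x hx hw
  have := hk₁.1
  obtain ⟨h, hlim, hlow, -⟩ := hgal k₁ hk₁.2 x hx hw
  exact ⟨h, hlim, hlow⟩

open scoped commutatorElement in
theorem few_of_commutator {G : Type*} [Group G] [Finite G] (t : ℕ)
    (ht : Nat.card (commutator G) ≤ t) (σ : G) :
    (Set.range fun g : G => g * σ * g⁻¹).ncard ≤ t := by
  refine le_trans ?_ ht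
  have h1 : (Set.range fun g : G => g * σ * g⁻¹) ⊆
      (fun c : G => c * σ) '' (commutator G : Set G) := by
    rintro _ ⟨g, rfl⟩
    refine ⟨⁅g, σ⁆, Subgroup.commutator_mem_commutator (Subgroup.mem_top g) (Subgroup.mem_top σ), ?_⟩
    simp [commutatorElement_def]
  refine (Set.ncard_le_ncard h1).trans ?_
  refine (Set.ncard_image_le (Set.toFinite _)).trans ?_
  rw [← Nat.card_coe_set_eq]
  rfl

/-- Let `G` be a topological group, `ρ` a continuous finite dimensional complex representation of
`G` (for instance the complexified adjoint representation of a semisimple Lie group), and `K` a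
number field. For all `D`, `s`, `n`, `B`, `t` and all `m ≥ 1` the families of all torsion-free
subgroups of `G` that are realized by integral matrices of size `n`, with at most `s` noncompact
embeddings, over number fields `k` of degree at most `D` over a field `k₁ ⊇ K` with one of the
properties (1) - (5), are uniformly discrete. In (1) and (2) `P` is a prime ideal of `K`, containing
the prime number `p`. -/
theorem result {G : Type*} [Group G] [TopologicalSpace G] {M : ℕ}
    (ρ : G →* Matrix (Fin M) (Fin M) ℂ) (hρ : Continuous ρ)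
    (K : Type) [Field K] [NumberField K] (D s n B t m : ℕ) (hm : 1 ≤ m) :
    (∀ (p : ℕ) (P : Ideal (𝓞 K)), p.Prime → P.IsPrime → (p : 𝓞 K) ∈ P →
      -- (1) an automorphism which is a power of Frobenius at many primes above `P`
      UniformlyDiscrete (Family K (fun k₁ => FrobeniusAtMany P m B k₁) D s n ρ) ∧
      -- (2) Galois extensions with few conjugates of one power of Frobenius above `P`
      UniformlyDiscrete (Family K (fun k₁ => FewConjugates P m B k₁) D s n ρ)) ∧
    -- (3) Galois extensions with few conjugates of the `m`-th powers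
    UniformlyDiscrete (Family K (fun k₁ => FewConjugatesOfPowers K m B k₁) D s n ρ) ∧
    -- (4) Galois extensions with virtually abelian Galois groups
    UniformlyDiscrete (Family K (fun k₁ => VirtuallyAbelian K t k₁) D s n ρ) ∧
    -- (5) Galois groups with bounded commutator subgroups
    UniformlyDiscrete (Family K (fun k₁ => SmallCommutatorSubgroup K t k₁) D s n ρ) := by
  have key : ∀ m B : ℕ, 1 ≤ m →
      UniformlyDiscrete (Family K (fun k₁ => FewConjugatesOfPowers K m B k₁) D s n ρ) := by
    intro m B hm
    obtain ⟨C, hC, h⟩ := powers K m B (n * D) hm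
    exact uniform_principle K 2 Nat.prime_two D s n
      (fun k₁ => FewConjugatesOfPowers K m B k₁) C hC (fun k₁ _ _ _ hk => h k₁ hk) ρ hρ _
      (fun Γ hΓ => hΓ)
  refine ⟨?_, key m B hm, ?_, ?_⟩
  · intro p P hp hP hpP
    obtain ⟨C, hC, h⟩ := heightBound_frob K p hp P hP hpP m B (n * D) hm
    refine ⟨?_, ?_⟩
    · exact uniform_principle K p hp D s n (fun k₁ => FrobeniusAtMany P m B k₁) C hC
        (fun k₁ _ _ _ hk => h k₁ (Or.inl hk)) ρ hρ _ (fun Γ hΓ => hΓ)
    · exact uniform_principle K p hp D s n (fun k₁ => FewConjugates P m B k₁) C hC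
        (fun k₁ _ _ _ hk => h k₁ (Or.inr hk)) ρ hρ _ (fun Γ hΓ => hΓ)
  · obtain ⟨U, hU, h⟩ := key t.factorial t t.factorial_pos
    refine ⟨U, hU, fun Γ hΓ => h Γ ?_⟩
    obtain ⟨htf, k, k₁, i1, i2, i3, i4, i5, i6, S, R, h1, h2, h3, H, hab, hH⟩ := hΓ
    exact ⟨htf, k, k₁, i1, i2, i3, i4, i5, i6, S, R, h1, h2, h3,
      fun σ => Pool.Agent.TH285.MG.conj_of_virt H hab t hH σ⟩
  · obtain ⟨U, hU, h⟩ := key 1 t le_rfl
    refine ⟨U, hU, fun Γ hΓ => h Γ ?_⟩
    obtain ⟨htf, k, k₁, i1, i2, i3, i4, i5, i6, S, R, h1, h2, h3, h4⟩ := hΓ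
    exact ⟨htf, k, k₁, i1, i2, i3, i4, i5, i6, S, R, h1, h2, h3,
      fun σ => by rw [pow_one]; exact few_of_commutator t h4 σ⟩

end Pool.Agent.Results.MP_162bbe_gt.FrobeniusAutomorphisms
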